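import Pool.Agent.Lib_helper11.TD.Defs
import Pool.Agent.Lib_helper75.TD.TD2
import Pool.Agent.Lib_helper62.TD.TD1
import Pool.Agent.Lib_helper61.TB.Dens
import Pool.Agent.Lib_helper61.TT.RM

/-!
# TD, block TD3: the trace modulo 2
-/

set_option autoImplicit false

namespace Pool.Agent.TD

open NumberField Polynomial Pool.Agent.TT Topology

theorem td3_finite {K : Type} [Field K] [NumberField K] [Algebra K Qbar] (P : (𝓞 K)[X])
    (hP : (P.map (algebraMap (𝓞 K) K)).Separable) : (rts P).Finite := by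
  have h0 : P.map (algebraMap (𝓞 K) K) ≠ 0 := hP.ne_zero
  have h1 : (P.map (algebraMap (𝓞 K) K)).map (algebraMap K Qbar) ≠ 0 := by
    rw [Ne, Polynomial.map_eq_zero]
    exact h0
  refine (Polynomial.finite_setOfPred_isRoot h1).subset ?_
  intro β hβ
  change P.eval₂ ((algebraMap K Qbar).comp (algebraMap (𝓞 K) K)) β = 0 at hβ
  change ((P.map (algebraMap (𝓞 K) K)).map (algebraMap K Qbar)).IsRoot β
  rw [Polynomial.IsRoot, Polynomial.map_map, Polynomial.eval_map]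
  exact hβ

/-- Near `h` all elements of the Galois group agree with `h` on a finite set. -/
theorem td3_nhds {K : Type} [Field K] [NumberField K] [Algebra K Qbar] (h : Qbar ≃ₐ[K] Qbar)
    (S : Set Qbar) (hS : S.Finite) : {s : Qbar ≃ₐ[K] Qbar | ∀ β ∈ S, s β = h β} ∈ 𝓝 h := by
  have hac : Algebra.IsAlgebraic ℚ Qbar := AlgebraicClosure.isAlgebraic ℚ
  have hacK : Algebra.IsAlgebraic K Qbar := Algebra.IsAlgebraic.tower_top (K := ℚ) K
  have h1 : {s : Qbar ≃ₐ[K] Qbar | ∀ β ∈ S, s β = h β} =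
      ⋂ β ∈ S, {s : Qbar ≃ₐ[K] Qbar | s β = h β} := by
    ext s
    simp
  rw [h1, Filter.biInter_mem hS]
  intro β _
  have h2 : IsOpen (MulAction.stabilizer (Qbar ≃ₐ[K] Qbar) β : Set (Qbar ≃ₐ[K] Qbar)) := by
    have : Algebra.IsIntegral K Qbar := inferInstance
    exact stabilizer_isOpen_of_isIntegral β
  have h3 : Continuous (fun s : Qbar ≃ₐ[K] Qbar => h⁻¹ * s) := continuous_const_mul h⁻¹
  have h4 : (fun s : Qbar ≃ₐ[K] Qbar => h⁻¹ * s) ⁻¹'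
      (MulAction.stabilizer (Qbar ≃ₐ[K] Qbar) β : Set (Qbar ≃ₐ[K] Qbar)) ∈ 𝓝 h := by
    refine (h2.preimage h3).mem_nhds ?_
    rw [Set.mem_preimage, inv_mul_cancel]
    exact one_mem (MulAction.stabilizer (Qbar ≃ₐ[K] Qbar) β)
  refine Filter.mem_of_superset h4 ?_
  intro s hs
  have h5 : (h⁻¹ * s) β = β := hs
  change s β = h β
  have h6 : h ((h⁻¹ * s) β) = h β := by rw [h5]
  rw [← h6]
  change _ = (h * (h⁻¹ * s)) β
  rw [mul_inv_cancel_left]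

theorem td3_eval {R S : Type} [CommRing R] [CommRing S] (φ : R →+* S) (A B : R[X]) (t : S) :
    (A ^ 2 - 4 * B).eval₂ φ t = A.eval₂ φ t ^ 2 - 4 * B.eval₂ φ t := by
  rw [eval₂_sub, eval₂_pow, eval₂_mul]
  congr 2
  have h : (4 : R[X]) = C (4 : R) := (map_ofNat C 4).symm
  rw [h, eval₂_C, map_ofNat]

/-- TD3: the trace modulo 2 (from TD1, TD2 and `Pool.Agent.TB.fb_dense`). -/
theorem td_trace {K : Type} [Field K] [NumberField K] [Algebra K Qbar] {n : ℕ} (hn : 1 ≤ n)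
    (A B : (𝓞 K)[X]) (hA : A.natDegree ≤ 2 * n) (hB : B.natDegree = 4 * n)
    (hD : (A ^ 2 - 4 * B).natDegree = 4 * n)
    (hBs : (B.map (algebraMap (𝓞 K) K)).Separable)
    (hDs : ((A ^ 2 - 4 * B).map (algebraMap (𝓞 K) K)).Separable)
    (τ : (Qbar ≃ₐ[K] Qbar) → ℚ_[2]) (hτ : Continuous τ) (ht : HasTraces τ n A B)
    (σ : Qbar ≃ₐ[K] Qbar) :
    ‖τ σ - ((Nat.card {β : rts B // σ β = β} : ℚ_[2]) +
      (Nat.card {β : rts (A ^ 2 - 4 * B) // σ β = β} : ℚ_[2]))‖ < 1 := by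
  classical
  obtain ⟨C1, hC1⟩ := ht
  obtain ⟨C2, hC2⟩ := td_roots B hBs (by omega)
  obtain ⟨C3, hC3⟩ := td_roots (A ^ 2 - 4 * B) hDs (by omega)
  -- the neighbourhood
  have hU1 : {s : Qbar ≃ₐ[K] Qbar | ‖τ s⁻¹ - τ σ‖ < 1} ∈ 𝓝 σ⁻¹ := by
    have h1 : Continuous (fun s : Qbar ≃ₐ[K] Qbar => ‖τ s⁻¹ - τ σ‖) :=
      ((hτ.comp continuous_inv).sub continuous_const).norm
    refine (isOpen_lt h1 continuous_const).mem_nhds ?_
    change ‖τ (σ⁻¹)⁻¹ - τ σ‖ < 1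
    rw [inv_inv, sub_self, norm_zero]
    exact one_pos
  have hU2 := td3_nhds σ⁻¹ (rts B ∪ rts (A ^ 2 - 4 * B))
    ((td3_finite B hBs).union (td3_finite _ hDs))
  obtain ⟨p, hp, hpC, Q, hQ, hpQ, s, ⟨hs1, hs2⟩, hs⟩ :=
    Pool.Agent.TB.fb_dense σ⁻¹ _ (Filter.inter_mem hU1 hU2) (C1 ∪ (C2 ∪ (C3 ∪ {2})))
  rw [Finset.mem_union, Finset.mem_union, Finset.mem_union, Finset.mem_singleton, not_or, not_or,
    not_or] at hpC
  obtain ⟨hp1, hp2, hp3, hp4⟩ := hpC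
  have hpF : Fact p.Prime := ⟨hp⟩
  have hchar : CharP (𝓞 Qbar ⧸ Q) p := Pool.Agent.DS.frx_charP hp Q hpQ
  let f : 𝓞 K →+* (𝓞 Qbar ⧸ Q) := (Ideal.Quotient.mk Q).comp (algebraMap (𝓞 K) (𝓞 Qbar))
  have hf : ∀ x, f x ^ p = f x := by
    intro x
    have h1 := hs (algebraMap (𝓞 K) (𝓞 Qbar) x) (algebraMap (𝓞 K) (𝓞 Qbar) x) (by
      have h2 : ((algebraMap (𝓞 K) (𝓞 Qbar) x : 𝓞 Qbar) : Qbar) = algebraMap K Qbar (x : K) := rfl
      rw [h2, AlgEquiv.commutes])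
    rw [← Ideal.Quotient.eq_zero_iff_mem, map_sub, map_pow, sub_eq_zero] at h1
    exact h1.symm
  obtain ⟨φ, hφ⟩ := rm_exists f hf
  have hcastinj : Function.Injective (ZMod.castHom (dvd_refl p) (𝓞 Qbar ⧸ Q)) :=
    ZMod.castHom_injective _
  have hφker : ∀ x : 𝓞 K, φ x = 0 ↔ algebraMap (𝓞 K) (𝓞 Qbar) x ∈ Q := by
    intro x
    rw [← Ideal.Quotient.eq_zero_iff_mem]
    change φ x = 0 ↔ f x = 0
    rw [← hφ x, map_eq_zero_iff _ hcastinj]
  have hs' : ∀ x y : 𝓞 Qbar, (y : Qbar) = s x → y - x ^ Fintype.card (ZMod p) ∈ Q := by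
    rw [ZMod.card]
    exact hs
  have e1 := hC1 p hp hp1 Q hQ hpQ (ZMod p) φ hφker s hs'
  obtain ⟨e2, e2'⟩ := hC2 p hp hp2 Q hQ hpQ (ZMod p) φ hφker s hs'
  obtain ⟨e3, e3'⟩ := hC3 p hp hp3 Q hQ hpQ (ZMod p) φ hφker s hs'
  rw [ZMod.card] at e1
  -- the parity
  have hb' : φ (B.coeff (4 * n)) ≠ 0 := by
    rw [← hB]
    exact e2
  have hd' : φ (A.coeff (2 * n)) ^ 2 - 4 * φ (B.coeff (4 * n)) ≠ 0 := by
    have h1 : (A ^ 2 - 4 * B).leadingCoeff = A.coeff (2 * n) ^ 2 - 4 * B.coeff (4 * n) := by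
      rw [leadingCoeff, hD, coeff_sub]
      congr 1
      · have h2 := coeff_mul_add_eq_of_natDegree_le hA hA
        rw [pow_two, pow_two, ← h2]
        congr 1
        ring
      · have h : (4 : (𝓞 K)[X]) = C (4 : 𝓞 K) := (map_ofNat C 4).symm
        rw [h, coeff_C_mul]
    rw [h1, map_sub, map_pow, map_mul, map_ofNat] at e3
    exact e3
  have hpar : ((charSum n A B φ : ℤ) : ZMod 2) =
      (Nat.card {t // B.eval₂ φ t = 0} : ZMod 2) +
        (Nat.card {t // (A ^ 2 - 4 * B).eval₂ φ t = 0} : ZMod 2) := by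
    have h1 := @td_parity (ZMod p) _ _ (fun a b => Classical.propDecidable (a = b))
      (by rw [ZMod.ringChar_zmod_n]; exact hp4) (fun t => A.eval₂ φ t) (fun t => B.eval₂ φ t)
      (φ (A.coeff (2 * n))) (φ (B.coeff (4 * n))) hb' hd'
    simp only [td3_eval]
    exact h1
  rw [e2', e3'] at hpar
  -- the fixed roots
  have hfix : ∀ P : (𝓞 K)[X], rts P ⊆ rts B ∪ rts (A ^ 2 - 4 * B) →
      Nat.card {β : rts P // s β = β} = Nat.card {β : rts P // σ β = β} := by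
    intro P hP
    have h1 : ∀ β : rts P, s β = β ↔ σ β = β := by
      intro β
      rw [hs2 β (hP β.2)]
      constructor
      · intro h
        have h2 : σ (σ⁻¹ (β : Qbar)) = σ β := by rw [h]
        rw [← h2]
        change (σ * σ⁻¹) (β : Qbar) = β
        rw [mul_inv_cancel]
        rfl
      · intro h
        have h2 : σ⁻¹ (σ (β : Qbar)) = σ⁻¹ β := by rw [h]
        rw [← h2]
        change (σ⁻¹ * σ) (β : Qbar) = β
        rw [inv_mul_cancel]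
        rfl
    exact Nat.card_congr (Equiv.subtypeEquivRight h1)
  rw [hfix B Set.subset_union_left, hfix _ Set.subset_union_right] at hpar
  set N1 := Nat.card {β : rts B // σ β = β} with hN1
  set N2 := Nat.card {β : rts (A ^ 2 - 4 * B) // σ β = β} with hN2
  -- the estimates
  have hev : ‖((charSum n A B φ : ℤ) : ℚ_[2]) - ((N1 : ℚ_[2]) + (N2 : ℚ_[2]))‖ < 1 := by
    have h1 : (((charSum n A B φ - ((N1 : ℤ) + N2) : ℤ)) : ZMod 2) = 0 := by
      push_cast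
      rw [hpar, sub_self]
    rw [ZMod.intCast_zmod_eq_zero_iff_dvd] at h1
    have h2 : ‖(((charSum n A B φ - ((N1 : ℤ) + N2) : ℤ)) : ℚ_[2])‖ < 1 := by
      rw [Padic.norm_intCast_lt_one_iff]
      exact_mod_cast h1
    push_cast at h2
    exact h2
  have hodd : ‖(p : ℚ_[2]) - 1‖ < 1 := by
    have h1 : ((p : ℚ_[2]) - 1) = (((p : ℤ) - 1 : ℤ) : ℚ_[2]) := by push_cast; rfl
    rw [h1, Padic.norm_intCast_lt_one_iff]
    have h2 : p % 2 = 1 := by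
      rcases hp.eq_two_or_odd with h | h
      · exact absurd h hp4
      · exact h
    omega
  have hpn : ‖(p : ℚ_[2])‖ = 1 := by
    have h1 : (p : ℚ_[2]) = ((p : ℚ_[2]) - 1) + 1 := by ring
    rw [h1, Padic.add_eq_max_of_ne (by rw [norm_one]; exact hodd.ne), norm_one,
      max_eq_right hodd.le]
  have hτs : ‖τ s⁻¹‖ ≤ 1 := by
    have h1 : ‖(p : ℚ_[2]) * τ s⁻¹‖ ≤ 1 := by
      rw [e1]
      exact Padic.norm_int_le_one _
    rwa [norm_mul, hpn, one_mul] at h1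
  have hfin : τ σ - ((N1 : ℚ_[2]) + (N2 : ℚ_[2])) =
      -(τ s⁻¹ - τ σ) + ((((charSum n A B φ : ℤ) : ℚ_[2]) - ((N1 : ℚ_[2]) + (N2 : ℚ_[2]))) +
        -(((p : ℚ_[2]) - 1) * τ s⁻¹)) := by
    rw [← e1]
    ring
  rw [hfin]
  refine (Padic.nonarchimedean _ _).trans_lt (max_lt ?_ ?_)
  · rw [norm_neg]
    exact hs1
  · refine (Padic.nonarchimedean _ _).trans_lt (max_lt hev ?_)
    rw [norm_neg, norm_mul]
    calc ‖(p : ℚ_[2]) - 1‖ * ‖τ s⁻¹‖ ≤ ‖(p : ℚ_[2]) - 1‖ * 1 := by gcongr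
      _ < 1 := by rw [mul_one]; exact hodd

end Pool.Agent.TD
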