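import Pool.Agent.Lib_helper11.TD.Lin
import Pool.Agent.Lib_helper66.TD.TD6

/-!
# TD, block TD7: independence of two families from their Gram matrices
-/

set_option autoImplicit false

namespace Pool.Agent.TD

section Gram

variable {p : ℕ} [hp : Fact p.Prime]

/-- Solutions of a linear system with unit determinant. -/
theorem td7_solve {r : ℕ} (A : Matrix (Fin r) (Fin r) ℤ_[p]) (hA : ‖A.det‖ = 1)
    (x : Fin r → ℚ_[p]) {C : ℝ} (hC : 0 ≤ C)
    (h : ∀ l, ‖∑ i, (A l i : ℚ_[p]) * x i‖ ≤ C) (i : Fin r) : ‖x i‖ ≤ C := by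
  have h1 : ∑ l, (A.adjugate i l : ℚ_[p]) * ∑ j, (A l j : ℚ_[p]) * x j =
      (A.det : ℚ_[p]) * x i := by
    have h2 : A.adjugate * A = A.det • (1 : Matrix (Fin r) (Fin r) ℤ_[p]) := Matrix.adjugate_mul A
    calc ∑ l, (A.adjugate i l : ℚ_[p]) * ∑ j, (A l j : ℚ_[p]) * x j
        = ∑ j, (∑ l, (A.adjugate i l : ℚ_[p]) * (A l j : ℚ_[p])) * x j := by
          simp_rw [Finset.mul_sum, Finset.sum_mul]
          rw [Finset.sum_comm]
          simp_rw [mul_assoc]
      _ = ∑ j, (((A.adjugate * A) i j : ℤ_[p]) : ℚ_[p]) * x j := by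
          refine Finset.sum_congr rfl fun j _ => ?_
          rw [Matrix.mul_apply, PadicInt.coe_sum]
          simp only [PadicInt.coe_mul]
      _ = (A.det : ℚ_[p]) * x i := by
          rw [h2, Finset.sum_eq_single i]
          · rw [Matrix.smul_apply, Matrix.one_apply_eq, smul_eq_mul, mul_one]
          · intro j _ hj
            rw [Matrix.smul_apply, Matrix.one_apply_ne (Ne.symm hj), smul_zero]
            simp
          · intro hi
            exact absurd (Finset.mem_univ i) hi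
  have h3 : ‖(A.det : ℚ_[p]) * x i‖ ≤ C := by
    rw [← h1]
    refine IsUltrametricDist.norm_sum_le_of_forall_le_of_nonneg hC fun l _ => ?_
    rw [norm_mul]
    calc ‖(A.adjugate i l : ℚ_[p])‖ * ‖∑ j, (A l j : ℚ_[p]) * x j‖
        ≤ 1 * C := by
          gcongr
          · exact (A.adjugate i l).2
          · exact h l
      _ = C := one_mul C
  rw [norm_mul] at h3
  have h4 : ‖(A.det : ℚ_[p])‖ = 1 := hA
  rwa [h4, one_mul] at h3

variable {V : Type*} [AddCommGroup V] [Module ℚ_[p] V]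

/-- The Gram matrix is integral with unit determinant. -/
theorem td7_gram (b : LinearMap.BilinForm ℚ_[p] V) (hs : ∀ x y, b x y = b y x) {r : ℕ}
    (hpr : ¬ p ∣ r + 1) (v : Fin r → V) (N : ℚ_[p]) (hN : N ≠ 0)
    (hv : ∀ i, b (v i) (v i) = N)
    (hv1 : ∀ i j : Fin r, (i : ℕ) + 1 = j → ‖(2 * b (v i) (v j) / N) ^ 2 - 1‖ < 1)
    (hv0 : ∀ i j : Fin r, (i : ℕ) + 1 < j → ‖2 * b (v i) (v j) / N‖ < 1) :
    ∃ A : Matrix (Fin r) (Fin r) ℤ_[p], ‖A.det‖ = 1 ∧
      ∀ i j, (A i j : ℚ_[p]) = 2 * b (v i) (v j) / N := by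
  have h1 : ∀ i j : Fin r, (i : ℕ) < j → ‖2 * b (v i) (v j) / N‖ ≤ 1 := by
    intro i j hij
    rcases Nat.lt_or_ge ((i : ℕ) + 1) j with h | h
    · exact (hv0 i j h).le
    · have h2 := hv1 i j (by omega)
      have h3 : ‖(2 * b (v i) (v j) / N) ^ 2‖ ≤ 1 := by
        have h4 : (2 * b (v i) (v j) / N) ^ 2 = ((2 * b (v i) (v j) / N) ^ 2 - 1) + 1 := by ring
        rw [h4]
        exact (Padic.nonarchimedean _ _).trans (max_le h2.le norm_one.le)
      rw [norm_pow] at h3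
      by_contra h5
      push Not at h5
      have h6 : 1 < ‖2 * b (v i) (v j) / N‖ ^ 2 := one_lt_pow₀ h5 two_ne_zero
      linarith
  have h2 : ∀ i j : Fin r, ‖2 * b (v i) (v j) / N‖ ≤ 1 := by
    intro i j
    rcases lt_trichotomy (i : ℕ) j with h | h | h
    · exact h1 i j h
    · have h3 : i = j := Fin.ext h
      subst h3
      rw [hv, mul_div_assoc, div_self hN, mul_one]
      have h4 := Padic.norm_int_le_one (p := p) 2
      simpa using h4
    · rw [hs]
      exact h1 j i h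
  refine ⟨fun i j => ⟨2 * b (v i) (v j) / N, h2 i j⟩, ?_, fun i j => rfl⟩
  have h3 := tri_mod (p := p) (r := r) (fun i j => ⟨2 * b (v i) (v j) / N, h2 i j⟩) (by
      intro i
      apply Subtype.ext
      show 2 * b (v i) (v i) / N = 2
      rw [hv, mul_div_assoc, div_self hN, mul_one]) (by
      intro i j
      apply Subtype.ext
      show 2 * b (v i) (v j) / N = 2 * b (v j) (v i) / N
      rw [hs]) (by
      intro i j hij
      exact hv1 i j hij) (by
      intro i j hij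
      exact hv0 i j hij)
  set D : ℤ_[p] := Matrix.det (fun i j : Fin r => (⟨2 * b (v i) (v j) / N, h2 i j⟩ : ℤ_[p])) with hD
  have h4 : ‖((r : ℤ_[p]) + 1)‖ = 1 := by
    have h5 : ((r : ℤ_[p]) + 1) = ((r + 1 : ℕ) : ℤ_[p]) := by push_cast; rfl
    rw [h5]
    rcases lt_or_eq_of_le (PadicInt.norm_le_one (((r + 1 : ℕ) : ℤ_[p]))) with h6 | h6
    · have h7 : ‖(((r + 1 : ℕ) : ℤ) : ℤ_[p])‖ < 1 := by
        rw [Int.cast_natCast]; exact h6
      rw [PadicInt.norm_int_lt_one_iff_dvd] at h7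
      exact absurd (by exact_mod_cast h7) hpr
    · exact h6
  have h5 : D = (D - ((r : ℤ_[p]) + 1)) + ((r : ℤ_[p]) + 1) := by ring
  rw [h5, PadicInt.norm_add_eq_max_of_ne (by rw [h4]; exact h3.ne), h4, max_eq_right h3.le]

theorem td7_max {r : ℕ} (x : Fin r → ℚ_[p]) :
    ∃ a : ℝ, 0 ≤ a ∧ (∀ i, ‖x i‖ ≤ a) ∧ (a = 0 ∨ ∃ i, a = ‖x i‖) := by
  rcases isEmpty_or_nonempty (Fin r) with h | h
  · exact ⟨0, le_refl 0, fun i => isEmptyElim i, Or.inl rfl⟩
  · obtain ⟨i, hi⟩ := Finite.exists_max (fun i => ‖x i‖)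
    exact ⟨‖x i‖, norm_nonneg _, hi, Or.inr ⟨i, rfl⟩⟩

/-- TD7: independence of two families (from TD6). -/
theorem td_ind (b : LinearMap.BilinForm ℚ_[p] V) (hs : ∀ x y, b x y = b y x) {r : ℕ}
    (hpr : ¬ p ∣ r + 1) (v w : Fin r → V) (N M : ℚ_[p]) (hN : N ≠ 0) (hM : M ≠ 0)
    (hv : ∀ i, b (v i) (v i) = N) (hw : ∀ i, b (w i) (w i) = M)
    (hv1 : ∀ i j : Fin r, (i : ℕ) + 1 = j → ‖(2 * b (v i) (v j) / N) ^ 2 - 1‖ < 1)
    (hv0 : ∀ i j : Fin r, (i : ℕ) + 1 < j → ‖2 * b (v i) (v j) / N‖ < 1)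
    (hw1 : ∀ i j : Fin r, (i : ℕ) + 1 = j → ‖(2 * b (w i) (w j) / M) ^ 2 - 1‖ < 1)
    (hw0 : ∀ i j : Fin r, (i : ℕ) + 1 < j → ‖2 * b (w i) (w j) / M‖ < 1)
    (hvw : ∀ i j, ‖4 * b (v i) (w j) ^ 2 / (N * M)‖ < 1) :
    LinearIndependent ℚ_[p] (Sum.elim v w) := by
  have hNn : 0 < ‖N‖ := norm_pos_iff.2 hN
  have hMn : 0 < ‖M‖ := norm_pos_iff.2 hM
  obtain ⟨A, hA, hAc⟩ := td7_gram b hs hpr v N hN hv hv1 hv0
  obtain ⟨B, hB, hBc⟩ := td7_gram b hs hpr w M hM hw hw1 hw0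
  have hX : ∃ X : ℝ, 0 ≤ X ∧ X ^ 2 < ‖N‖ * ‖M‖ ∧ ∀ i j, ‖2 * b (v i) (w j)‖ ≤ X := by
    rcases isEmpty_or_nonempty (Fin r × Fin r) with h | h
    · refine ⟨0, le_refl 0, by rw [zero_pow two_ne_zero]; positivity, fun i j => ?_⟩
      exact (IsEmpty.false (i, j)).elim
    · obtain ⟨i, hi⟩ := Finite.exists_max (fun i : Fin r × Fin r => ‖2 * b (v i.1) (w i.2)‖)
      refine ⟨‖2 * b (v i.1) (w i.2)‖, norm_nonneg _, ?_, fun j k => hi (j, k)⟩
      have h1 := hvw i.1 i.2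
      rw [norm_div, norm_mul N M, div_lt_one (by positivity)] at h1
      rw [← norm_pow]
      have h2 : (2 * b (v i.1) (w i.2)) ^ 2 = 4 * b (v i.1) (w i.2) ^ 2 := by ring
      rw [h2]
      exact h1
  obtain ⟨X, hX0, hX2, hX⟩ := hX
  rw [Fintype.linearIndependent_iff]
  intro g hg
  rw [Fintype.sum_sum_type] at hg
  simp only [Sum.elim_inl, Sum.elim_inr] at hg
  obtain ⟨a, ha0, ha, ha'⟩ := td7_max (fun i => g (Sum.inl i))
  obtain ⟨c, hc0, hc, hc'⟩ := td7_max (fun i => g (Sum.inr i))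
  -- pairing with the vectors
  have hpv : ∀ l, ∑ i, (A l i : ℚ_[p]) * g (Sum.inl i) =
      -∑ j, (2 * b (v l) (w j) / N) * g (Sum.inr j) := by
    intro l
    have h1 : b (v l) (∑ i, g (Sum.inl i) • v i + ∑ i, g (Sum.inr i) • w i) = 0 := by
      rw [hg, map_zero]
    rw [map_add, map_sum, map_sum] at h1
    simp only [map_smul, smul_eq_mul] at h1
    rw [eq_neg_iff_add_eq_zero]
    have h2 : ∑ i, (A l i : ℚ_[p]) * g (Sum.inl i) =
        (2 / N) * ∑ i, g (Sum.inl i) * b (v l) (v i) := by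
      rw [Finset.mul_sum]
      refine Finset.sum_congr rfl fun i _ => ?_
      rw [hAc]
      ring
    have h3 : ∑ j, (2 * b (v l) (w j) / N) * g (Sum.inr j) =
        (2 / N) * ∑ i, g (Sum.inr i) * b (v l) (w i) := by
      rw [Finset.mul_sum]
      refine Finset.sum_congr rfl fun i _ => ?_
      ring
    rw [h2, h3, ← mul_add, h1, mul_zero]
  have hpw : ∀ l, ∑ i, (B l i : ℚ_[p]) * g (Sum.inr i) =
      -∑ j, (2 * b (v j) (w l) / M) * g (Sum.inl j) := by
    intro l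
    have h1 : b (w l) (∑ i, g (Sum.inl i) • v i + ∑ i, g (Sum.inr i) • w i) = 0 := by
      rw [hg, map_zero]
    rw [map_add, map_sum, map_sum] at h1
    simp only [map_smul, smul_eq_mul] at h1
    rw [eq_neg_iff_add_eq_zero]
    have h2 : ∑ i, (B l i : ℚ_[p]) * g (Sum.inr i) =
        (2 / M) * ∑ i, g (Sum.inr i) * b (w l) (w i) := by
      rw [Finset.mul_sum]
      refine Finset.sum_congr rfl fun i _ => ?_
      rw [hBc]
      ring
    have h3 : ∑ j, (2 * b (v j) (w l) / M) * g (Sum.inl j) =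
        (2 / M) * ∑ i, g (Sum.inl i) * b (w l) (v i) := by
      rw [Finset.mul_sum]
      refine Finset.sum_congr rfl fun i _ => ?_
      rw [hs (v i) (w l)]
      ring
    rw [h2, h3, ← mul_add, add_comm, h1, mul_zero]
  have hx : ∀ i, ‖g (Sum.inl i)‖ ≤ X / ‖N‖ * c := by
    refine td7_solve A hA (fun i => g (Sum.inl i)) (by positivity) fun l => ?_
    rw [hpv, norm_neg]
    refine IsUltrametricDist.norm_sum_le_of_forall_le_of_nonneg (by positivity) fun j _ => ?_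
    rw [norm_mul, norm_div]
    gcongr
    · exact hX l j
    · exact hc j
  have hy : ∀ i, ‖g (Sum.inr i)‖ ≤ X / ‖M‖ * a := by
    refine td7_solve B hB (fun i => g (Sum.inr i)) (by positivity) fun l => ?_
    rw [hpw, norm_neg]
    refine IsUltrametricDist.norm_sum_le_of_forall_le_of_nonneg (by positivity) fun j _ => ?_
    rw [norm_mul, norm_div]
    gcongr
    · exact hX j l
    · exact ha j
  have hca : c ≤ X / ‖M‖ * a := by
    rcases hc' with h | ⟨i, h⟩
    · rw [h]; positivity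
    · rw [h]; exact hy i
  have hac : a ≤ X / ‖N‖ * c := by
    rcases ha' with h | ⟨i, h⟩
    · rw [h]; positivity
    · rw [h]; exact hx i
  have hθ : X / ‖N‖ * (X / ‖M‖) < 1 := by
    rw [div_mul_div_comm, div_lt_one (by positivity), ← pow_two]
    exact hX2
  have ha1 : a ≤ 0 := by
    by_contra h
    push Not at h
    have h1 : a ≤ X / ‖N‖ * (X / ‖M‖) * a := by
      calc a ≤ X / ‖N‖ * c := hac
        _ ≤ X / ‖N‖ * (X / ‖M‖ * a) := by gcongr
        _ = X / ‖N‖ * (X / ‖M‖) * a := by ring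
    have h2 : X / ‖N‖ * (X / ‖M‖) * a < 1 * a := by gcongr
    linarith
  have ha2 : a = 0 := le_antisymm ha1 ha0
  have hc2 : c = 0 := by
    rw [ha2, mul_zero] at hca
    exact le_antisymm hca hc0
  rintro (i | i)
  · have h1 := ha i
    rw [ha2] at h1
    exact norm_le_zero_iff.1 h1
  · have h1 := hc i
    rw [hc2] at h1
    exact norm_le_zero_iff.1 h1

end Gram

end Pool.Agent.TD
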